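import Pool.Agent.H970.RN.Defs

/-!
# RN970-6 (helper970): iteration of the renormalisation step, all components
-/

set_option autoImplicit false

noncomputable section

namespace Pool.Agent.H358.RN

open MvPolynomial Pool.Agent.H5R2.ON Pool.Agent.H717R2.ON3 Pool.Agent.H983R2.ONJ
open Pool.Agent.Y13.QM Pool.Agent.H970.RG Pool.Agent.H970.RN

/-- one step of the recursion of the bounds -/
theorem rec_step {C δ B M c : ℝ} (hC : 0 < C) (hδ : 0 < δ) (hB : 0 ≤ B)
    (hc : c = δ / (1 + C * δ)) (hM : B ≤ max δ M) :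
    C * B ^ 2 / (1 + C * B) ≤ max δ (M - c) := by
  have h1 : 0 < 1 + C * B := by positivity
  have h2 : 0 < 1 + C * δ := by positivity
  have e : C * B ^ 2 / (1 + C * B) = B - B / (1 + C * B) := by
    field_simp
    ring
  rcases le_or_gt B δ with h | h
  · refine le_max_of_le_left ?_
    rw [e]
    have : 0 ≤ B / (1 + C * B) := by positivity
    linarith
  · have h3 : c ≤ B / (1 + C * B) := by
      rw [hc, div_le_div_iff₀ h2 h1]
      nlinarith
    rw [e]
    rcases le_max_iff.1 hM with h4 | h4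
    · exact absurd h (not_lt.2 h4)
    · refine le_max_of_le_right ?_
      linarith

theorem rec_nonneg {C B : ℝ} (hC : 0 < C) (hB : 0 ≤ B) : 0 ≤ C * B ^ 2 / (1 + C * B) := by
  positivity

/-- the step of the renormalisation -/
def Step {N L : ℕ} [NeZero L] {ι : Type} [Fintype ι] {G : Gr (Tor L) ι} {β : ℝ}
    {Λ : Finset (Tor L)} (W : WFunN N G β Λ) (C1 : ℝ) : Prop :=
  ∀ (J : Tor L → MatN N (Tor L)) (b : Tor L → Fin N → Fin N → DerN N (Tor L)) (ρ l B r : ℝ),
      GoodN W J b ρ l B → 0 ≤ ρ → 2 * ρ ≤ r → l ≤ r → 1 ≤ r → 0 ≤ B → 2 * r < L →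
      GoodN W (nJM J (1 / (1 + C1 * B)) (psi 4 r)) (nbM J b (1 / (1 + C1 * B)) (psi 4 r)) (7 * r)
        (20 * r) (C1 * B ^ 2 / (1 + C1 * B))

/-- the levels of the renormalisation -/
theorem levels {B0 C1 δ c R ρ β : ℝ} (hB0 : 0 ≤ B0) (hC1 : 0 < C1) (hδ : 0 < δ)
    (hc : c = δ / (1 + C1 * δ)) (hρ : 1 ≤ ρ)
    {N L : ℕ} [NeZero L] (hL : 2 * R < L) {ι : Type} [Fintype ι] {G : Gr (Tor L) ι}
    {Λ : Finset (Tor L)} (W : WFunN N G β Λ) {J0 : Tor L → MatN N (Tor L)}
    {b0 : Tor L → Fin N → Fin N → DerN N (Tor L)}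
    (h0 : GoodN W J0 b0 ρ ρ B0)
    (h1 : Step W C1) (n : ℕ) :
    20 ^ n * (2 * ρ) ≤ R → ∃ (J : Tor L → MatN N (Tor L))
      (b : Tor L → Fin N → Fin N → DerN N (Tor L)) (ρ' l' B' : ℝ),
      GoodN W J b ρ' l' B' ∧ 0 ≤ ρ' ∧ 2 * ρ' ≤ 20 ^ n * (2 * ρ) ∧ l' ≤ 20 ^ n * (2 * ρ) ∧
        0 ≤ B' ∧ B' ≤ max δ (B0 - n * c) := by
  induction n with
  | zero =>
    intro _
    refine ⟨_, _, ρ, ρ, B0, h0, by linarith, ?_, ?_, hB0, ?_⟩
    · rw [pow_zero, one_mul]
    · rw [pow_zero, one_mul]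
      linarith
    · rw [Nat.cast_zero, zero_mul, sub_zero]
      exact le_max_right _ _
  | succ n ih =>
    intro hR
    have hp : (1 : ℝ) ≤ 20 ^ n := one_le_pow₀ (by norm_num)
    have hr : 1 ≤ 20 ^ n * (2 * ρ) := by nlinarith
    have hr2 : 20 ^ (n + 1) * (2 * ρ) = 20 * (20 ^ n * (2 * ρ)) := by ring
    rw [hr2] at hR
    obtain ⟨J, b, ρ', l', B', hG, h2, h3, h4, h5, h6⟩ := ih (by linarith)
    refine ⟨_, _, _, _, _, h1 J b ρ' l' B' _ hG h2 h3 h4 hr h5 (by linarith), ?_, ?_, ?_,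
      rec_nonneg hC1 h5, ?_⟩
    · linarith
    · rw [hr2]
      linarith
    · rw [hr2]
    · have h7 := rec_step hC1 hδ h5 hc h6
      have e : B0 - ((n + 1 : ℕ) : ℝ) * c = B0 - n * c - c := by
        push_cast
        ring
      rw [e]
      exact h7

/-- further levels: the bounds decay doubly exponentially -/
theorem levels2 {C1 R T β : ℝ} (hC1 : 0 < C1) (hT : 1 ≤ T)
    {N L : ℕ} [NeZero L] (hL : 2 * R < L) {ι : Type} [Fintype ι] {G : Gr (Tor L) ι}
    {Λ : Finset (Tor L)} (W : WFunN N G β Λ) {J0 : Tor L → MatN N (Tor L)}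
    {b0 : Tor L → Fin N → Fin N → DerN N (Tor L)} {ρ0 l0 B0 : ℝ}
    (h0 : GoodN W J0 b0 ρ0 l0 B0) (g1 : 0 ≤ ρ0) (g2 : 2 * ρ0 ≤ T) (g3 : l0 ≤ T) (g4 : 0 ≤ B0)
    (g5 : C1 * B0 ≤ 1 / 4) (h1 : Step W C1) (n : ℕ) :
    20 ^ n * T ≤ R → ∃ (J : Tor L → MatN N (Tor L))
      (b : Tor L → Fin N → Fin N → DerN N (Tor L)) (ρ' l' B' : ℝ),
      GoodN W J b ρ' l' B' ∧ 0 ≤ ρ' ∧ 2 * ρ' ≤ 20 ^ n * T ∧ l' ≤ 20 ^ n * T ∧
        0 ≤ B' ∧ C1 * B' ≤ (1 / 4) ^ (2 ^ n) := by
  induction n with
  | zero =>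
    intro _
    refine ⟨_, _, _, _, _, h0, g1, ?_, ?_, g4, ?_⟩
    · rw [pow_zero, one_mul]; exact g2
    · rw [pow_zero, one_mul]; exact g3
    · simpa using g5
  | succ n ih =>
    intro hR
    have hp : (1 : ℝ) ≤ 20 ^ n := one_le_pow₀ (by norm_num)
    have hr : 1 ≤ 20 ^ n * T := by nlinarith
    have hr2 : 20 ^ (n + 1) * T = 20 * (20 ^ n * T) := by ring
    rw [hr2] at hR
    obtain ⟨J, b, ρ', l', B', hG, h2, h3, h4, h5, h6⟩ := ih (by linarith)
    refine ⟨_, _, _, _, _, h1 J b ρ' l' B' _ hG h2 h3 h4 hr h5 (by linarith), ?_, ?_, ?_,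
      rec_nonneg hC1 h5, ?_⟩
    · linarith
    · rw [hr2]
      linarith
    · rw [hr2]
    · have h7 : 0 < 1 + C1 * B' := by positivity
      have h8 : C1 * (C1 * B' ^ 2 / (1 + C1 * B')) ≤ (C1 * B') ^ 2 := by
        rw [mul_div_assoc', div_le_iff₀ h7]
        have : 0 ≤ C1 * B' := by positivity
        nlinarith [mul_nonneg this (sq_nonneg (C1 * B'))]
      refine h8.trans ?_
      rw [pow_succ 2 n, pow_mul]
      exact pow_le_pow_left₀ (by positivity) h6 2

theorem der_sum {N : ℕ} {V : Type} {α : Type} (s : Finset α) (d : α → DerN N V) (F : AlgN N V) :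
    (∑ a ∈ s, d a) F = ∑ a ∈ s, d a F := by
  classical
  induction s using Finset.induction_on with
  | empty => simp
  | insert a s ha ih =>
    rw [Finset.sum_insert ha, Finset.sum_insert ha, Derivation.add_apply, ih]

theorem DN_X {N : ℕ} {V : Type} [DecidableEq V] (x y : V) (i j k : Fin N) :
    DN x i j (X (y, k) : AlgN N V) = if y = x then
      ((if k = j then X (x, i) else 0) - (if k = i then X (x, j) else 0)) else 0 := by
  unfold DN
  rw [mkDerivation_X]

theorem RR_X {N : ℕ} {V : Type} [Fintype V] [DecidableEq V] (p : V) {i j : Fin N} (hij : i ≠ j) :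
    RR (fun _ => 1) i j (X (p, j) : AlgN N V) = X (p, i) := by
  unfold RR
  rw [der_sum, Finset.sum_eq_single p]
  · rw [one_smul, DN_X, if_pos rfl, if_pos rfl, if_neg (Ne.symm hij), sub_zero]
  · intro x _ hx
    rw [one_smul, DN_X, if_neg (Ne.symm hx)]
  · intro h
    exact absurd (Finset.mem_univ p) h

theorem JM_apply {N : ℕ} {V : Type} [Fintype V] [DecidableEq V] (J : V → MatN N V) (f : V → ℝ)
    (i j : Fin N) : JM J f i j = ∑ y, f y • J y i j := by
  unfold JM
  rw [Matrix.sum_apply]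
  rfl

theorem W_sq {N : ℕ} {V ι : Type} [DecidableEq V] [Fintype ι] {G : Gr V ι} {β : ℝ}
    {Λ : Finset V} (W : WFunN N G β Λ) (F : AlgN N V) : 0 ≤ W.E (F ^ 2) := by
  refine W.pos _ fun σ _ => ?_
  rw [map_pow]
  exact sq_nonneg _

/-- a level gives the bound of the influence of the boundary -/
theorem main_level {v R β ρ' l' B' : ℝ} (hR : 0 < R) {N L : ℕ} [NeZero L] (hN : 3 ≤ N)
    {ι : Type} [Fintype ι] {G : Gr (Tor L) ι} (p : Tor L) (W : WFunN N G β (ball p R))
    {J : Tor L → MatN N (Tor L)}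
    {b : Tor L → Fin N → Fin N → DerN N (Tor L)}
    (hG : GoodN W J b ρ' l' B') (hρ : ρ' ≤ R / 100) (hl : l' ≤ R / 2)
    (hv : 0 < v) (hB : 4 * B' ≤ v ^ 2) (i : Fin N) : |W.E (X (p, i))| ≤ v := by
  have hN' : (3 : ℝ) ≤ N := by exact_mod_cast hN
  set U : Fin N → Fin N → AlgN N (Tor L) := fun i j => JM J (fR R p) i j with hU
  -- (b) the second moments
  have hmom : ∑ i, ∑ j, W.E (U i j ^ 2) ≤ v ^ 2 * ((N : ℝ) - 2) ^ 2 := by
    have h := hG.mom (R / 2) hl p (fun x hx => by
      unfold ball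
      rw [Finset.mem_filter]
      exact ⟨Finset.mem_univ _, by linarith⟩) 2 (fR R p) (by norm_num)
      (fun x hx => Aux493C.fR_supp R hR p x hx) (fun x y => by
        refine (Aux493C.fR_lip R hR p x y).trans (le_of_eq ?_)
        have e0 : (2 : ℝ) / (R / 2) = 4 / R := by
          field_simp
          norm_num
        rw [e0]) 1 (by
          intro x _ i j
          exact Derivation.map_one_eq_zero _) (by
          intro σ _
          rw [map_one]
          exact zero_le_one)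
    rw [W.one] at h
    simp only [mul_one] at h
    have h2 : (2 : ℝ) ^ 2 * (B' * ((N : ℝ) - 2) ^ 2) ≤ v ^ 2 * ((N : ℝ) - 2) ^ 2 := by
      have h3 := mul_le_mul_of_nonneg_right hB (sq_nonneg ((N : ℝ) - 2))
      linarith
    exact h.trans h2
  -- (c) the integration by parts
  have hibp : ∀ j, i ≠ j → W.E (U i j * X (p, j)) = W.E (X (p, i)) := by
    intro j hij
    have e1 : W.E (U i j * X (p, j)) = ∑ y, fR R p y * W.E (J y i j * X (p, j)) := by
      rw [hU]
      simp only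
      rw [JM_apply, Finset.sum_mul, map_sum]
      refine Finset.sum_congr rfl fun y _ => ?_
      rw [smul_mul_assoc, map_smul, smul_eq_mul]
    have hloc : LocN ({p} : Set (Tor L)) (X (p, j) : AlgN N (Tor L)) := by
      intro x hx i' j'
      rw [DN_X, if_neg]
      intro h
      exact hx (by rw [← h]; exact Set.mem_singleton _)
    have e2 : ∀ y : Tor L, fR R p y * W.E (J y i j * X (p, j)) = W.E (b y i j (X (p, j))) := by
      intro y
      by_cases hy : tnorm (y - p) ≤ R / 4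
      · rw [fR_near R hR p y hy, one_mul]
        refine (hG.ibp y (fun x hx => ?_) i j _).symm
        unfold ball
        rw [Finset.mem_filter]
        refine ⟨Finset.mem_univ _, ?_⟩
        have := Geo3_tri x y p
        linarith
      · have h3 : b y i j (X (p, j)) = 0 := by
          refine hG.loc y i j _ _ hloc ?_
          intro x hx
          rw [Set.mem_singleton_iff] at hx
          rw [hx, tnorm_sub_comm]
          push Not at hy
          linarith
        rw [h3, map_zero]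
        by_cases hy2 : fR R p y = 0
        · rw [hy2, zero_mul]
        · have h4 := Aux493C.fR_supp R hR p y hy2
          rw [← hG.ibp y (fun x hx => ?_) i j _, h3, map_zero, mul_zero]
          unfold ball
          rw [Finset.mem_filter]
          refine ⟨Finset.mem_univ _, ?_⟩
          have := Geo3_tri x y p
          linarith
    have e3 : ∑ y, b y i j (X (p, j)) = (X (p, i) : AlgN N (Tor L)) := by
      rw [← der_sum, hG.sumb i j]
      exact RR_X p hij
    rw [e1, Finset.sum_congr rfl fun y _ => e2 y, ← map_sum, e3]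
  have hUii : U i i = 0 := by
    rw [hU]
    simp only
    rw [JM_apply]
    refine Finset.sum_eq_zero fun y _ => ?_
    have h1 := hG.anti y i i
    have h2 : (2 : ℝ) • J y i i = 0 := by
      rw [two_smul]
      nth_rewrite 1 [h1]
      exact neg_add_cancel _
    have h3 : J y i i = 0 := (smul_eq_zero.1 h2).resolve_left (by norm_num)
    rw [h3, smul_zero]
  have hsum : W.E (∑ j, U i j * X (p, j)) = ((N : ℝ) - 1) * W.E (X (p, i)) := by
    rw [map_sum, ← Finset.add_sum_erase Finset.univ _ (Finset.mem_univ i), hUii, zero_mul,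
      map_zero, zero_add, Finset.sum_congr rfl fun j hj => hibp j (Finset.ne_of_mem_erase hj).symm,
      Finset.sum_const, Finset.card_erase_of_mem (Finset.mem_univ _), Finset.card_univ,
      Fintype.card_fin, nsmul_eq_mul, Nat.cast_sub (by omega)]
    push_cast
    ring
  have hrow : ∑ j, W.E (U i j ^ 2) ≤ v ^ 2 * ((N : ℝ) - 2) ^ 2 := by
    refine le_trans ?_ hmom
    exact Finset.single_le_sum (f := fun i => ∑ j, W.E (U i j ^ 2))
      (fun i _ => Finset.sum_nonneg fun j _ => W_sq W _) (Finset.mem_univ i)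
  -- (d) the conclusion
  set q : ℝ := v * ((N : ℝ) - 2) with hq
  have hq0 : 0 < q := mul_pos hv (by linarith)
  have key : ∀ s : ℝ, s ^ 2 = 1 → s * (((N : ℝ) - 1) * W.E (X (p, i))) ≤ q := by
    intro s hs
    have h1 := W.pos ((1 / (2 * q)) • ∑ j, U i j ^ 2 + (q / 2) • (1 : AlgN N (Tor L)) -
      s • ∑ j, U i j * X (p, j)) (by
        intro σ hσ
        rw [map_sub, map_add, smul_eval, smul_eval, smul_eval, map_one, map_sum, map_sum]
        simp only [map_pow, map_mul, eval_X]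
        have h2 := hσ p
        have h3 : ∀ j, s * (eval σ (U i j) * σ (p, j)) ≤
            1 / (2 * q) * (eval σ (U i j)) ^ 2 + q / 2 * σ (p, j) ^ 2 := by
          intro j
          have h4 : 1 / (2 * q) * (eval σ (U i j)) ^ 2 + q / 2 * σ (p, j) ^ 2 -
              s * (eval σ (U i j) * σ (p, j)) =
              (eval σ (U i j) - s * q * σ (p, j)) ^ 2 / (2 * q) := by
            have h5 : (eval σ (U i j) - s * q * σ (p, j)) ^ 2 =
                eval σ (U i j) ^ 2 - 2 * q * s * (eval σ (U i j) * σ (p, j)) +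
                  q ^ 2 * σ (p, j) ^ 2 := by
              have : (eval σ (U i j) - s * q * σ (p, j)) ^ 2 =
                  eval σ (U i j) ^ 2 - 2 * q * s * (eval σ (U i j) * σ (p, j)) +
                  s ^ 2 * (q ^ 2 * σ (p, j) ^ 2) := by ring
              rw [this, hs, one_mul]
            rw [h5]
            field_simp
            ring
          have h6 : 0 ≤ (eval σ (U i j) - s * q * σ (p, j)) ^ 2 / (2 * q) := by positivity
          linarith
        have h7 := Finset.sum_le_sum fun j (_ : j ∈ Finset.univ) => h3 j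
        rw [Finset.sum_add_distrib, ← Finset.mul_sum, ← Finset.mul_sum, ← Finset.mul_sum] at h7
        have h8 : q / 2 * ∑ j, σ (p, j) ^ 2 ≤ q / 2 * 1 :=
          mul_le_mul_of_nonneg_left h2 (by linarith)
        linarith)
    rw [map_sub, map_add, map_smul, map_smul, map_smul, W.one, hsum, map_sum, smul_eq_mul,
      smul_eq_mul, smul_eq_mul, mul_one] at h1
    have h2 : 1 / (2 * q) * ∑ j, W.E (U i j ^ 2) ≤ q / 2 := by
      have h3 : 1 / (2 * q) * ∑ j, W.E (U i j ^ 2) ≤ 1 / (2 * q) * (v ^ 2 * ((N : ℝ) - 2) ^ 2) :=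
        mul_le_mul_of_nonneg_left hrow (by positivity)
      have h4 : v ^ 2 * ((N : ℝ) - 2) ^ 2 = q ^ 2 := by rw [hq]; ring
      rw [h4] at h3
      have h5 : 1 / (2 * q) * q ^ 2 = q / 2 := by
        field_simp
      linarith
    linarith
  have k1 := key 1 (by norm_num)
  have k2 := key (-1) (by norm_num)
  have hfin : |((N : ℝ) - 1) * W.E (X (p, i))| ≤ q := abs_le.2 ⟨by linarith, by linarith⟩
  rw [abs_mul, abs_of_pos (by linarith : (0 : ℝ) < (N : ℝ) - 1)] at hfin
  have h9 : ((N : ℝ) - 1) * |W.E (X (p, i))| ≤ ((N : ℝ) - 1) * v := by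
    refine hfin.trans ?_
    rw [hq]
    nlinarith
  exact le_of_mul_le_mul_left h9 (by linarith)

theorem main_of (h0 : Pool.Agent.H970.RN.S_zero) (h1 : Pool.Agent.H970.RN.S_mom) :
    Pool.Agent.H970.RN.S_main := by
  obtain ⟨C0, hC0, h0⟩ := h0
  obtain ⟨C1, hC1', h1⟩ := h1
  have hC1 : 0 < C1 := by linarith
  set δ : ℝ := 1 / (4 * C1) with hδ
  have hδ0 : 0 < δ := by positivity
  set c : ℝ := δ / (1 + C1 * δ) with hc
  have hc0 : 0 < c := by positivity
  have hlog1 : 0 < Real.log 400 := Real.log_pos (by norm_num)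
  have hlog2 : 1 ≤ Real.log 4000000 := by
    rw [Real.le_log_iff_exp_le (by norm_num)]
    have := Real.exp_one_lt_d9
    linarith
  have hC0c : 0 ≤ Real.log 400 * (C0 / c) := by positivity
  refine ⟨Real.log 4000000 + Real.log 400 * (C0 / c), by linarith, ?_⟩
  intro N hN K hK n R hR L _ hL ι _ G β ρ hNice hρ hρR p W i
  have hN0 : (0 : ℝ) < N := by
    have : 0 < N := by omega
    exact_mod_cast this
  obtain ⟨K', hK'⟩ : ∃ K' : ℝ, K' = K / N := ⟨_, rfl⟩
  have hK'0 : 0 ≤ K' := by rw [hK']; positivity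
  rw [← hK'] at hR
  set m : ℕ := ⌈C0 * K' / c⌉₊ with hm
  have hn1 : C0 * K' / c ≤ m := Nat.le_ceil _
  have hn2 : (m : ℝ) < C0 * K' / c + 1 := Nat.ceil_lt_add_one (by positivity)
  have hpn : (0 : ℝ) < 400 ^ n := by positivity
  have hR1 : (10000 : ℝ) * 400 ^ (m + n) ≤ R := by
    refine le_trans ?_ hR
    rw [pow_add, ← mul_assoc]
    refine mul_le_mul_of_nonneg_right ?_ hpn.le
    have e1 : (10000 : ℝ) * 400 ^ m = 10000 * Real.exp (Real.log 400 * m) := by
      rw [mul_comm (Real.log 400), Real.exp_nat_mul, Real.exp_log (by norm_num)]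
    have e2 : Real.exp (Real.log 400 * m) ≤ 400 * Real.exp (Real.log 400 * (C0 / c) * K') := by
      have e3 : (400 : ℝ) * Real.exp (Real.log 400 * (C0 / c) * K') =
          Real.exp (Real.log 400 + Real.log 400 * (C0 / c) * K') := by
        rw [Real.exp_add, Real.exp_log (by norm_num)]
      rw [e3]
      refine Real.exp_le_exp.2 ?_
      have e4 : Real.log 400 + Real.log 400 * (C0 / c) * K' =
          Real.log 400 * (C0 * K' / c + 1) := by ring
      rw [e4]
      exact mul_le_mul_of_nonneg_left hn2.le hlog1.le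
    have e5 : (4000000 : ℝ) * Real.exp (Real.log 400 * (C0 / c) * K') ≤
        Real.exp ((Real.log 4000000 + Real.log 400 * (C0 / c)) * (1 + K')) := by
      have e6 : (4000000 : ℝ) * Real.exp (Real.log 400 * (C0 / c) * K') =
          Real.exp (Real.log 4000000 + Real.log 400 * (C0 / c) * K') := by
        rw [Real.exp_add, Real.exp_log (by norm_num)]
      rw [e6]
      refine Real.exp_le_exp.2 ?_
      have e7 : 0 ≤ Real.log 4000000 * K' := by positivity
      nlinarith
    rw [e1]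
    nlinarith
  have hpow : (1 : ℝ) ≤ 400 ^ (m + n) := one_le_pow₀ (by norm_num)
  have hR0 : 0 < R := by linarith
  have hsq : 100 * 20 ^ (m + n) ≤ √R := by
    refine Real.le_sqrt_of_sq_le ?_
    have e9 : ((100 : ℝ) * 20 ^ (m + n)) ^ 2 = 10000 * 400 ^ (m + n) := by
      rw [mul_pow, ← pow_mul, mul_comm (m + n) 2, pow_mul]
      norm_num
    rw [e9]
    exact hR1
  have hr : 20 ^ n * (20 ^ m * (2 * ρ)) ≤ R / 50 := by
    have e0 : (20 : ℝ) ^ n * (20 ^ m * (2 * ρ)) = 20 ^ (m + n) * (2 * ρ) := by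
      rw [pow_add]; ring
    rw [e0]
    have e10 : √R * √R = R := Real.mul_self_sqrt hR0.le
    have e11 : (0 : ℝ) < 20 ^ (m + n) := by positivity
    have e12 : (20 : ℝ) ^ (m + n) * (2 * ρ) ≤ 20 ^ (m + n) * (2 * √R) :=
      mul_le_mul_of_nonneg_left (by linarith) e11.le
    have e13 : (100 * 20 ^ (m + n)) * √R ≤ √R * √R :=
      mul_le_mul_of_nonneg_right hsq (Real.sqrt_nonneg _)
    linarith
  have hp1 : (1 : ℝ) ≤ 20 ^ n := one_le_pow₀ (by norm_num)
  have hp2 : (1 : ℝ) ≤ 20 ^ m := one_le_pow₀ (by norm_num)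
  have hT1 : 1 ≤ 20 ^ m * (2 * ρ) := by nlinarith
  have hTR : 20 ^ m * (2 * ρ) ≤ R := by nlinarith
  have hstep : Step W C1 := fun J b ρ l B r => h1 N hN L G β _ W J b ρ l B r
  have hzero := h0 N hN L G β ρ K hNice hρ hK _ W
  rw [← hK'] at hzero
  obtain ⟨J, b, ρ', l', B', hG, g1, g2, g3, g4, g5⟩ := levels (by positivity) hC1 hδ0 hc hρ hL W
    hzero hstep m hTR
  have hB : B' ≤ δ := by
    refine g5.trans (max_le le_rfl ?_)
    have e14 : C0 * K' ≤ m * c := by
      rwa [div_le_iff₀ hc0] at hn1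
    linarith
  have hB2 : C1 * B' ≤ 1 / 4 := by
    have e15 : C1 * B' ≤ C1 * δ := mul_le_mul_of_nonneg_left hB hC1.le
    have e16 : C1 * δ = 1 / 4 := by
      rw [hδ]; field_simp
    linarith
  obtain ⟨J', b', ρ'', l'', B'', hG', k1, k2, k3, k4, k5⟩ := levels2 hC1 hT1 hL W hG g1 g2 g3 g4
    hB2 hstep n (by linarith)
  refine main_level hR0 hN p W hG' (by linarith) (by linarith) (by positivity) ?_ i
  have e17 : ((1 / 2 : ℝ) ^ (2 ^ n)) ^ 2 = (1 / 4) ^ (2 ^ n) := by
    rw [← pow_mul, mul_comm, pow_mul]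
    norm_num
  rw [e17]
  have e18 : 4 * B'' ≤ C1 * B'' := mul_le_mul_of_nonneg_right hC1' k4
  linarith

end Pool.Agent.H358.RN
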